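import Pool.Agent.Helper32K9.Hong.Inst2

set_option autoImplicit false

namespace Pool.Agent.Results.MP_b9b22b_co.BothEnds

open Finset Pool.Agent.Helper91.Gen Pool.Agent.Helper91.Eig Pool.Agent.Helper32K9.Hong
open Pool.Agent.Results.MP_b9b22b_co.SharpUpper (lam bigM herm lam_eq in28 f28 f28_R f28_sum f28_dot
  R28 R28_symm R28_refl bigM_eq)

/-- the smallest value of the `i`-th eigenvalue over all graphs on `n` vertices -/
noncomputable def smallM (i n : ℕ) : ℝ := sInf (Set.range fun G : SimpleGraph (Fin n) => lam G i)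

theorem smallM_eq {i n : ℕ} {m : ℝ} (h1 : ∀ G : SimpleGraph (Fin n), m ≤ lam G i)
    (h2 : ∃ G : SimpleGraph (Fin n), lam G i ≤ m) : smallM i n = m := by
  obtain ⟨G, hG⟩ := h2
  apply IsLeast.csInf_eq
  refine ⟨⟨G, le_antisymm hG (h1 G)⟩, ?_⟩
  rintro x ⟨H, rfl⟩
  exact h1 H

theorem smallM_mem (i n : ℕ) : ∃ G : SimpleGraph (Fin n), lam G i = smallM i n := by
  have h : (Set.range fun G : SimpleGraph (Fin n) => lam G i).Nonempty := ⟨_, ⟨⊥, rfl⟩⟩
  exact h.csInf_mem (Set.finite_range _)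

theorem bigM_mem (i n : ℕ) : ∃ G : SimpleGraph (Fin n), lam G i = bigM i n := by
  have h : (Set.range fun G : SimpleGraph (Fin n) => lam G i).Nonempty := ⟨_, ⟨⊥, rfl⟩⟩
  exact h.csSup_mem (Set.finite_range _)

/-- both extremal values when maximal equiangular systems exist -/
theorem attained (k : ℕ) (hk : 2 ≤ k) (h : MaxEquiangular k) (t : ℕ) (ht : 1 ≤ t) :
    smallM (k * (k + 1) * t - k + 1) (k * (k + 1) * t) = -(cc k * (k * (k + 1) * t : ℕ)) ∧
    bigM (k + 1) (k * (k + 1) * t) = cc k * (k * (k + 1) * t : ℕ) - 1 := by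
  obtain ⟨α, v, hα, h1, h2⟩ := h
  have hN : 2 * (k * (k + 1) / 2) = k * (k + 1) := by
    have : 2 ∣ k * (k + 1) := (Nat.even_mul_succ_self k).two_dvd
    omega
  obtain ⟨hα0, hα2⟩ := angle k _ hk hN v α hα h1 h2
  have hcard : Fintype.card (Fin (k * (k + 1) / 2) × Bool) = k * (k + 1) := by
    simp; omega
  let e : Fin (k * (k + 1)) ≃ Fin (k * (k + 1) / 2) × Bool := (Fintype.equivFinOfCardEq hcard).symm
  have hlt : k < k * (k + 1) * t := by nlinarith
  constructor
  · apply smallM_eq
    · intro G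
      exact lower_bound G k hk hlt.le
    · exact ⟨_, ex_low hk hN v α hα0 hα2 h1 h2 e t ht⟩
  · apply bigM_eq
    · intro G
      exact upper_bound G k hk hlt
    · exact ⟨_, ex_high hk hN v α hα0 hα2 h1 h2 e t ht⟩

theorem small_imp (k n : ℕ) (hk : 2 ≤ k) (hn : k ≤ n) (h : smallM (n - k + 1) n = -(cc k * n)) :
    MaxEquiangular k := by
  obtain ⟨G, hG⟩ := smallM_mem (n - k + 1) n
  obtain ⟨v, h1, h2⟩ := lower_eq G k hk hn (hG.trans h)
  refine ⟨_, v, ?_, h1, h2⟩
  have hk2 : (2 : ℝ) ≤ k := by exact_mod_cast hk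
  have : 1 < Real.sqrt ((k : ℝ) + 2) := by
    rw [Real.lt_sqrt (by norm_num)]; linarith
  rw [div_lt_one (by linarith)]
  exact this

theorem big_imp (k n : ℕ) (hk : 2 ≤ k) (hn : k < n) (h : bigM (k + 1) n = cc k * n - 1) :
    MaxEquiangular k := by
  obtain ⟨G, hG⟩ := bigM_mem (k + 1) n
  obtain ⟨v, h1, h2⟩ := upper_eq G k hk hn (hG.trans h)
  refine ⟨_, v, ?_, h1, h2⟩
  have hk2 : (2 : ℝ) ≤ k := by exact_mod_cast hk
  have : 1 < Real.sqrt ((k : ℝ) + 2) := by
    rw [Real.lt_sqrt (by norm_num)]; linarith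
  rw [div_lt_one (by linarith)]
  exact this

theorem cc2 : cc 2 = 1 / 3 := by
  unfold cc
  have : Real.sqrt (((2 : ℕ) : ℝ) + 2) = 2 := by
    rw [show (((2 : ℕ) : ℝ) + 2) = 2 ^ 2 by norm_num]
    exact Real.sqrt_sq (by norm_num)
  rw [this]; norm_num

theorem cc3 : cc 3 = (1 + Real.sqrt 5) / 12 := by
  unfold cc
  have : (((3 : ℕ) : ℝ) + 2) = 5 := by norm_num
  rw [this]
  push_cast
  ring

theorem cc7 : cc 7 = 5 / 28 := by
  unfold cc
  have : Real.sqrt (((7 : ℕ) : ℝ) + 2) = 3 := by
    rw [show (((7 : ℕ) : ℝ) + 2) = 3 ^ 2 by norm_num]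
    exact Real.sqrt_sq (by norm_num)
  rw [this]; norm_num

theorem cc23 : cc 23 = 7 / 69 := by
  unfold cc
  have : Real.sqrt (((23 : ℕ) : ℝ) + 2) = 5 := by
    rw [show (((23 : ℕ) : ℝ) + 2) = 5 ^ 2 by norm_num]
    exact Real.sqrt_sq (by norm_num)
  rw [this]; norm_num

/-! ### smaller extremal graphs in dimensions two and seven -/

/-- complete multipartite relation -/
def R3n (u v : Fin 3) : Bool := !(u = v)
theorem R3n_symm : ∀ u v, R3n u v = R3n v u := by decide
theorem R3n_irr : ∀ u, R3n u u = false := by decide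

theorem ex3n (t : ℕ) (ht : 1 ≤ t) : lam (iblow 3 t R3n R3n_symm R3n_irr) (3 * t - 2 + 1) ≤ (-1) * t := by
  have h := iblow_high 3 t 1 (3 * t - 2) ht R3n R3n_symm R3n_irr (by omega) (-1)
    (![![1, -1, 0], ![0, 1, -1]]) ?_ ?_
  · exact h
  · intro γ hγ
    have h0 := hγ 0
    have h2 := hγ 2
    simp [Fin.sum_univ_two] at h0 h2
    funext j
    fin_cases j
    · exact h0
    · exact h2
  · intro γ
    apply le_of_eq
    simp [Fin.sum_univ_two, Fin.sum_univ_three, R3n]
    ring

/-- two pairs are related when they are disjoint -/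
def R28n (u v : Fin 28) : Bool := !(R28 u v)
theorem R28n_symm : ∀ u v, R28n u v = R28n v u := fun u v => by unfold R28n; rw [R28_symm]
theorem R28n_irr : ∀ u, R28n u u = false := fun u => by unfold R28n; rw [R28_refl]; rfl

theorem w28_R : ∀ (c : Fin 8) (u : Fin 28), ∑ v, (if R28n u v then w28 v c else 0) = -5 * w28 u c := by
  decide +kernel

theorem w28_dot : ∀ c d : Fin 8, ∑ u, w28 u c * w28 u d = if c = d then 84 else -12 := by
  decide +kernel

theorem ex28n (t : ℕ) (ht : 1 ≤ t) :
    lam (iblow 28 t R28n R28n_symm R28n_irr) (28 * t - 7 + 1) ≤ (-5) * t := by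
  have h := iblow_high 28 t 6 (28 * t - 7) ht R28n R28n_symm R28n_irr (by omega) (-5)
    (fun c u => (w28 u (Fin.castSucc c) : ℝ)) ?_ ?_
  · exact h
  · intro γ hγ
    have hdot : ∀ c d : Fin 7, ∑ u, (w28 u (Fin.castSucc c) : ℝ) * (w28 u (Fin.castSucc d) : ℝ)
        = if c = d then 84 else -12 := by
      intro c d
      have := w28_dot (Fin.castSucc c) (Fin.castSucc d)
      simp only [Fin.castSucc_inj] at this
      by_cases hcd : c = d
      · simp only [hcd, if_true] at this ⊢
        exact_mod_cast this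
      · simp only [hcd, if_false] at this ⊢
        exact_mod_cast this
    have h1 : ∀ c : Fin 7, 96 * γ c - 12 * ∑ d, γ d = 0 := by
      intro c
      have e : ∑ u, (w28 u (Fin.castSucc c) : ℝ) * ∑ d, γ d * (w28 u (Fin.castSucc d) : ℝ) = 0 := by
        apply Finset.sum_eq_zero; intro u _
        rw [hγ u, mul_zero]
      have e2 : ∑ u, (w28 u (Fin.castSucc c) : ℝ) * ∑ d, γ d * (w28 u (Fin.castSucc d) : ℝ)
          = ∑ d, γ d * (if c = d then 84 else -12) := by
        simp only [Finset.mul_sum]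
        rw [Finset.sum_comm]
        apply Finset.sum_congr rfl; intro d _
        rw [← hdot, Finset.mul_sum]
        apply Finset.sum_congr rfl; intro u _; ring
      rw [e2] at e
      have e3 : ∀ d, γ d * (if c = d then (84 : ℝ) else -12) = (if c = d then 96 * γ d else 0) - 12 * γ d := by
        intro d
        by_cases h : c = d
        · simp only [h, if_true]; ring
        · simp only [h, if_false]; ring
      simp only [e3, Finset.sum_sub_distrib, ← Finset.mul_sum] at e
      simp only [Finset.sum_ite_eq, Finset.mem_univ, if_true] at e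
      linarith
    have h2 : ∑ d, γ d = 0 := by
      have : ∑ c : Fin 7, (96 * γ c - 12 * ∑ d, γ d) = 0 := Finset.sum_eq_zero fun c _ => h1 c
      simp only [Finset.sum_sub_distrib, ← Finset.mul_sum, Finset.sum_const, Finset.card_univ,
        Fintype.card_fin, nsmul_eq_mul] at this
      push_cast at this
      linarith
    funext c
    have := h1 c
    rw [h2] at this
    simp at this
    simpa using this
  · intro γ
    apply le_of_eq
    rw [Finset.mul_sum]
    apply Finset.sum_congr rfl; intro u _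
    have e1 : ∀ v, (if R28n u v = true then ∑ a : Fin 7, γ a * (w28 v (Fin.castSucc a) : ℝ) else 0)
        = ∑ a : Fin 7, γ a * (if R28n u v then (w28 v (Fin.castSucc a) : ℝ) else 0) := by
      intro v
      by_cases hr : R28n u v = true <;> simp [hr]
    simp only [e1]
    rw [Finset.sum_comm]
    have e2 : ∀ a : Fin 7, ∑ v, (if R28n u v then (w28 v (Fin.castSucc a) : ℝ) else 0)
        = -5 * (w28 u (Fin.castSucc a) : ℝ) := by
      intro a
      have := w28_R (Fin.castSucc a) u
      exact_mod_cast this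
    simp only [← Finset.mul_sum, e2]
    have e3 : ∑ a : Fin 7, γ a * (-5 * (w28 u (Fin.castSucc a) : ℝ))
        = -5 * ∑ a : Fin 7, γ a * (w28 u (Fin.castSucc a) : ℝ) := by
      rw [Finset.mul_sum]
      apply Finset.sum_congr rfl; intro a _; ring
    rw [e3]; ring

/-- The `k`-th eigenvalue from below and the `(k+1)`-st from above: sharp bounds for every `k ≥ 2`,
attained for some order if and only if `ℝ^k` contains `k(k+1)/2` equiangular lines, and the exact
extremal values that follow in dimensions `2, 3, 7, 23`. -/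
theorem result :
    (∀ k n : ℕ, 2 ≤ k → k ≤ n → ∀ G : SimpleGraph (Fin n),
      -((2 + ((k : ℝ) - 1) * Real.sqrt (k + 2)) / (2 * k * (k + 1)) * n) ≤ lam G (n - k + 1)) ∧
    (∀ k : ℕ, 2 ≤ k →
      ((∃ n, k ≤ n ∧ smallM (n - k + 1) n =
          -((2 + ((k : ℝ) - 1) * Real.sqrt (k + 2)) / (2 * k * (k + 1)) * n)) ↔ MaxEquiangular k) ∧
      ((∃ n, k < n ∧ bigM (k + 1) n =
          (2 + ((k : ℝ) - 1) * Real.sqrt (k + 2)) / (2 * k * (k + 1)) * n - 1) ↔ MaxEquiangular k)) ∧
    (∀ k : ℕ, 2 ≤ k → MaxEquiangular k → ∀ n, 1 ≤ n → k * (k + 1) ∣ n →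
      smallM (n - k + 1) n = -((2 + ((k : ℝ) - 1) * Real.sqrt (k + 2)) / (2 * k * (k + 1)) * n) ∧
      bigM (k + 1) n = (2 + ((k : ℝ) - 1) * Real.sqrt (k + 2)) / (2 * k * (k + 1)) * n - 1) ∧
    (MaxEquiangular 2 ∧ MaxEquiangular 3 ∧ MaxEquiangular 7 ∧ MaxEquiangular 23) ∧
    (∀ t : ℕ, 1 ≤ t →
      smallM (3 * t - 1) (3 * t) = -t ∧
      smallM (12 * t - 2) (12 * t) = -((1 + Real.sqrt 5) * t) ∧
      smallM (28 * t - 6) (28 * t) = -(5 * t) ∧
      smallM (552 * t - 22) (552 * t) = -(56 * t) ∧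
      bigM 24 (552 * t) = 56 * t - 1) := by
  refine ⟨fun k n hk hn G => lower_bound G k hk hn, fun k hk => ⟨⟨?_, ?_⟩, ⟨?_, ?_⟩⟩, ?_,
    ⟨max2, max3, max7, max23⟩, ?_⟩
  · rintro ⟨n, hn, h⟩
    exact small_imp k n hk hn h
  · intro h
    have hlt : k < k * (k + 1) * 1 := by nlinarith
    exact ⟨_, hlt.le, (attained k hk h 1 le_rfl).1⟩
  · rintro ⟨n, hn, h⟩
    exact big_imp k n hk hn h
  · intro h
    have hlt : k < k * (k + 1) * 1 := by nlinarith
    exact ⟨_, hlt, (attained k hk h 1 le_rfl).2⟩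
  · rintro k hk h n hn ⟨t, rfl⟩
    have ht : 1 ≤ t := by
      rcases Nat.eq_zero_or_pos t with h | h
      · rw [h] at hn; simp at hn
      · exact h
    exact attained k hk h t ht
  · intro t ht
    refine ⟨?_, ?_, ?_, ?_, ?_⟩
    · have e : 3 * t - 1 = 3 * t - 2 + 1 := by omega
      rw [e]
      apply smallM_eq
      · intro G
        refine le_trans (le_of_eq ?_) (lower_bound G 2 le_rfl (by omega))
        rw [cc2]; push_cast; ring
      · exact ⟨_, by simpa using ex3n t ht⟩
    · have h := (attained 3 (by norm_num) max3 t ht).1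
      have e : 3 * (3 + 1) * t = 12 * t := by ring
      have e' : 12 * t - 3 + 1 = 12 * t - 2 := by omega
      rw [e, e', cc3] at h
      rw [h]; push_cast; ring
    · have e : 28 * t - 6 = 28 * t - 7 + 1 := by omega
      rw [e]
      apply smallM_eq
      · intro G
        refine le_trans (le_of_eq ?_) (lower_bound G 7 (by norm_num) (by omega))
        rw [cc7]; push_cast; ring
      · exact ⟨_, by simpa using ex28n t ht⟩
    · have h := (attained 23 (by norm_num) max23 t ht).1
      have e : 23 * (23 + 1) * t = 552 * t := by ring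
      have e' : 552 * t - 23 + 1 = 552 * t - 22 := by omega
      rw [e, e', cc23] at h
      rw [h]; push_cast; ring
    · have h := (attained 23 (by norm_num) max23 t ht).2
      have e : 23 * (23 + 1) * t = 552 * t := by ring
      rw [e, cc23] at h
      rw [h]; push_cast; ring

end Pool.Agent.Results.MP_b9b22b_co.BothEnds
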